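import Pool.Agent.X191.NS.APMain
import Pool.Agent.X191.NS.Expansion

/-!
# MP_ab119d_nt: the answer is negative, the dimension can be zero

There is a basic sequence `q` with `q_n → ∞`, fully divergent of type I, such that the set of the
`q`-normal numbers which are not normal of order `2` along the odd positions has Hausdorff
dimension `0`. The set of the question is contained in it.

Outside of short regular stretches `[4^t, 4^t + 2^t)` the values `q_n` are small (about `log n`) for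
`n ≡ 1, 2 mod 4` and gigantic (larger than `(q_1 ⋯ q_{n-1})^n`) for `n ≡ 3, 0 mod 4`. So nearly all
the weight of the blocks of length two sits at odd positions. If `x` is normal, then a block of length
two whose frequency at the odd positions is wrong must occur infinitely often at an even position
outside of the regular stretches, so infinitely many digits of `x` at gigantic positions are bounded.
Such `x` form a set of dimension zero.
-/

set_option autoImplicit false

open Filter Topology Finset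

namespace Pool.Agent.Results.MP_ab119d_nt.DimensionZero

/-- `P q n = q_1 ⋯ q_n` -/
def P (q : ℕ → ℕ) (n : ℕ) : ℕ := ∏ j ∈ Icc 1 n, q j

/-- The digit `E_n` (`n ≥ 1`) of the `Q`-Cantor series expansion of `x`: the residue of `⌊q_1 ⋯ q_n x⌋`
modulo `q_n`. -/
noncomputable def digit (q : ℕ → ℕ) (x : ℝ) (n : ℕ) : ℕ :=
  (⌊(P q n : ℝ) * x⌋ % (q n : ℤ)).toNat

/-- The block `B` of length `k` occurs at position `p`. -/
def Occurs (q : ℕ → ℕ) (x : ℝ) {k : ℕ} (B : Fin k → ℕ) (p : ℕ) : Prop :=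
  ∀ i : Fin k, digit q x (p + i) = B i

open Classical in
/-- `N_{n,m,r}(B, x)`: the number of positions `p` with `1 ≤ p ≤ n`, `p ≡ r mod m`, at which `B`
occurs. For `m = 1`, `r = 0` this is `N_n(B, x)`. -/
noncomputable def count (q : ℕ → ℕ) {k : ℕ} (B : Fin k → ℕ) (x : ℝ) (m r n : ℕ) : ℕ :=
  ((Icc 1 n).filter fun p => p % m = r ∧ Occurs q x B p).card

/-- `Q^{(k)}_{n,m,r}`: the sum of `1 / (q_p q_{p+1} ⋯ q_{p+k-1})` over the same positions. For `m = 1`,
`r = 0` this is `Q^{(k)}_n`. -/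
noncomputable def weight (q : ℕ → ℕ) (k m r n : ℕ) : ℝ :=
  ∑ p ∈ (Icc 1 n).filter (fun p => p % m = r), 1 / ∏ i ∈ range k, (q (p + i) : ℝ)

/-- `𝒩(Q)`: the `Q`-normal numbers. -/
def Normal (q : ℕ → ℕ) : Set ℝ := {x | ∀ k, 1 ≤ k → ∀ B : Fin k → ℕ,
  Tendsto (fun n => (count q B x 1 0 n : ℝ) / weight q k 1 0 n) atTop (𝓝 1)}

/-- `𝒩^{AP}_k(Q; m, r)` -/
def NormalAP (q : ℕ → ℕ) (k m r : ℕ) : Set ℝ := {x | ∀ B : Fin k → ℕ,
  Tendsto (fun n => (count q B x m r n : ℝ) / weight q k m r n) atTop (𝓝 1)}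

/-- `Q` is a basic sequence with `q_n → ∞` which is fully divergent of type I. -/
def TypeI (q : ℕ → ℕ) : Prop := (∀ n, 2 ≤ q n) ∧ Tendsto q atTop atTop ∧
  ∀ k m r : ℕ, 1 ≤ k → 1 ≤ m → r < m → Tendsto (weight q k m r) atTop atTop

/-- (1) The numbers `digit q x n` are the digits of the Cantor series expansion of `x`.
(2) For some basic sequence `q` with `q_n → ∞`, fully divergent of type I, the set of the question has
Hausdorff dimension `0`, and so has the larger set `𝒩(Q) ∖ 𝒩^{AP}_2(Q; 2, 1)`. -/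
theorem result :
    (∀ q : ℕ → ℕ, (∀ n, 2 ≤ q n) → ∀ x : ℝ, (∀ n, digit q x n < q n) ∧
      (∃ᶠ n in atTop, digit q x n ≠ q n - 1) ∧
      HasSum (fun n => (digit q x (n + 1) : ℝ) / P q (n + 1)) (x - ⌊x⌋)) ∧
    ∃ q : ℕ → ℕ, TypeI q ∧ dimH (Normal q \ NormalAP q 2 2 1) = 0 ∧
      dimH (Normal q \ ⋃ k ≥ 2, ⋃ r < k, NormalAP q k k r) = 0 := by
  refine ⟨fun q hq x => ⟨fun n => Pool.Agent.X191.NS.digit_lt hq x n,
    Pool.Agent.X191.NS.frequently_digit hq x, Pool.Agent.X191.NS.expansion hq x⟩,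
    Pool.Agent.X191.NS.Q, ⟨Pool.Agent.X191.NS.two_le_Q, Pool.Agent.X191.NS.tendsto_Q,
      fun k m r _ _ hr => Pool.Agent.X191.NS.fdti k m r hr⟩,
    Pool.Agent.X191.NS.dim_two, Pool.Agent.X191.NS.dim_main⟩

end Pool.Agent.Results.MP_ab119d_nt.DimensionZero
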